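import Pool.Agent.H44.MS.Basics
import Pool.Agent.H22.MR.Cheb

/-!
# The numbers with a large smooth part
-/

set_option autoImplicit false

namespace Pool.Agent.H22.MS

open Finset Real Pool.Agent.H44.MS
open scoped ArithmeticFunction.vonMangoldt

/-- The weight of Rankin's trick. -/
noncomputable def hw (z m : ℕ) : ℝ :=
  ic (Good 0 z m) * (sp z m : ℝ) ^ (1 / Real.log z) * 2 ^ Om z m

theorem hw_nonneg (z m : ℕ) : 0 ≤ hw z m := by
  unfold hw
  have h1 : (0 : ℝ) ≤ (sp z m : ℝ) ^ (1 / Real.log z) := Real.rpow_nonneg (Nat.cast_nonneg _) _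
  have h2 := ic_nonneg (Good 0 z m)
  positivity

theorem hw_one (z : ℕ) : hw z 1 = 1 := by
  unfold hw
  rw [ic_pos (good_one 0 z), Om_one, sp_of_smooth (smooth_one z) one_pos]
  simp

theorem hw_mul (z m n : ℕ) (hm : 0 < m) (hn : 0 < n) : hw z (m * n) = hw z m * hw z n := by
  unfold hw
  rw [ic_congr (good_mul 0 z m n), ic_and, sp_mul z hm hn, Om_mul z hm.ne' hn.ne']
  push_cast
  rw [Real.mul_rpow (Nat.cast_nonneg _) (Nat.cast_nonneg _), pow_add]
  ring

theorem log_ge {z : ℕ} (hz : 100 ≤ z) : 4 < Real.log z := by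
  have h1 : (100 : ℝ) ≤ z := by exact_mod_cast hz
  have h2 : Real.log 100 ≤ Real.log z := Real.log_le_log (by norm_num) h1
  have h3 : (4 : ℝ) < Real.log 100 := by
    rw [Real.lt_log_iff_exp_lt (by norm_num)]
    have h4 : Real.exp 4 = Real.exp 1 ^ 4 := by
      rw [← Real.exp_nat_mul]; norm_num
    rw [h4]
    have h5 := Real.exp_one_lt_d9
    have h6 : (0 : ℝ) < Real.exp 1 := Real.exp_pos 1
    calc Real.exp 1 ^ 4 ≤ (2.7182818286 : ℝ) ^ 4 := by gcongr
      _ < 100 := by norm_num
  linarith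

/-- The bound `p ^ δ ≤ 1 + 2 δ log p` for `p ≤ z`, `δ = 1 / log z`. -/
theorem rpow_le {z p : ℕ} (hz : 100 ≤ z) (hp : 0 < p) (hpz : p ≤ z) :
    (p : ℝ) ^ (1 / Real.log z) ≤ 1 + 2 * (Real.log p / Real.log z) := by
  have h1 := log_ge hz
  have hp0 : (0 : ℝ) < p := by exact_mod_cast hp
  have h2 : 0 ≤ Real.log p := Real.log_nonneg (by exact_mod_cast hp)
  have h3 : Real.log p ≤ Real.log z := Real.log_le_log hp0 (by exact_mod_cast hpz)
  have h4 : 0 ≤ Real.log p / Real.log z := by positivity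
  have h5 : Real.log p / Real.log z ≤ 1 := by rw [div_le_one (by linarith)]; exact h3
  have h6 := Real.abs_exp_sub_one_sub_id_le (x := Real.log p / Real.log z) (by
    rw [abs_of_nonneg h4]; exact h5)
  have h7 := (abs_le.1 h6).2
  rw [Real.rpow_def_of_pos hp0, show Real.log p * (1 / Real.log z) = Real.log p / Real.log z by ring]
  nlinarith

theorem hw_prime_small {z p : ℕ} (hp : p.Prime) (hpz : p ≤ z) :
    hw z p = ic (p % 4 ≠ 3) * (p : ℝ) ^ (1 / Real.log z) := by
  unfold hw
  have h1 : Smooth z p := by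
    intro q hq hd
    rw [(Nat.prime_dvd_prime_iff_eq hq hp).1 hd]
    exact hpz
  rw [Om_prime z hp, if_neg (not_lt.2 hpz), sp_of_smooth h1 hp.pos, pow_zero, mul_one]
  congr 1
  apply ic_congr
  constructor
  · intro h h3
    exact h p hp h3 hp.pos hpz (dvd_refl p)
  · intro h q hq h3 _ _ hd
    rw [(Nat.prime_dvd_prime_iff_eq hq hp).1 hd] at h3
    exact h h3

theorem hw_prime_large {z p : ℕ} (hp : p.Prime) (hpz : z < p) : hw z p = 2 := by
  unfold hw
  have h1 : Rough z p := by
    intro q hq hd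
    rw [(Nat.prime_dvd_prime_iff_eq hq hp).1 hd]
    exact hpz
  rw [Om_prime z hp, if_pos hpz, sp_of_rough h1 hp.pos, ic_pos (good_of_rough h1)]
  simp

theorem hw_prime {z p : ℕ} (hz : 100 ≤ z) (hp : p.Prime) :
    0 ≤ hw z p ∧ hw z p ≤ 3 ∧ hw z p ≤ 3 / 4 * p := by
  refine ⟨hw_nonneg z p, ?_⟩
  have hlz := log_ge hz
  by_cases hpz : p ≤ z
  · rw [hw_prime_small hp hpz]
    have h1 := rpow_le hz hp.pos hpz
    have hp0 : (0 : ℝ) < p := by exact_mod_cast hp.pos
    have h3 : Real.log p ≤ Real.log z := Real.log_le_log hp0 (by exact_mod_cast hpz)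
    have h5 : Real.log p / Real.log z ≤ 1 := by rw [div_le_one (by linarith)]; exact h3
    have h6 : (p : ℝ) ^ (1 / Real.log z) ≤ 3 := by linarith
    have h7 : (0 : ℝ) ≤ (p : ℝ) ^ (1 / Real.log z) := Real.rpow_nonneg hp0.le _
    have h8 : ic (p % 4 ≠ 3) * (p : ℝ) ^ (1 / Real.log z) ≤ (p : ℝ) ^ (1 / Real.log z) := by
      have := ic_le_one (p % 4 ≠ 3)
      nlinarith [ic_nonneg (p % 4 ≠ 3)]
    refine ⟨by linarith, ?_⟩
    by_cases h2 : p = 2
    · have h9 : Real.log p / Real.log z ≤ 1 / 4 := by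
        rw [h2]
        have h10 : Real.log ((2 : ℕ) : ℝ) < 1 := by
          have := Real.log_two_lt_d9
          push_cast
          linarith
        rw [div_le_div_iff₀ (by linarith) (by norm_num)]
        linarith
      have h11 : (2 : ℝ) = p := by rw [h2]; norm_num
      calc ic (p % 4 ≠ 3) * (p : ℝ) ^ (1 / Real.log z) ≤ (p : ℝ) ^ (1 / Real.log z) := h8
        _ ≤ 1 + 2 * (1 / 4) := by linarith
        _ = 3 / 4 * 2 := by norm_num
        _ = 3 / 4 * p := by rw [h11]
    · by_cases h4 : p = 3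
      · rw [ic_neg (fun h => h (by rw [h4])), zero_mul]
        positivity
      · have h9 : 5 ≤ p := by
          have h10 := hp.two_le
          by_contra hcon
          have h11 : p = 4 := by omega
          rw [h11] at hp
          exact absurd hp (by norm_num)
        have h10 : (5 : ℝ) ≤ p := by exact_mod_cast h9
        linarith
  · rw [hw_prime_large hp (not_le.1 hpz)]
    have h1 : (100 : ℝ) ≤ p := by exact_mod_cast (by omega : 100 ≤ p)
    constructor
    · norm_num
    · linarith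

theorem abs_bth_le (z E : ℕ) {m : ℕ} (hm : 0 < m) :
    |bth z E m| ≤ ic (rp z m ≤ E ^ 2) * 2 ^ Om z m := by
  unfold bth
  calc |∑ x ∈ (rp z m).divisorsAntidiagonal, ic (x.1 ≤ E ∧ x.2 ≤ E) * chi x.1|
      ≤ ∑ x ∈ (rp z m).divisorsAntidiagonal, |ic (x.1 ≤ E ∧ x.2 ≤ E) * chi x.1| :=
        Finset.abs_sum_le_sum_abs _ _
    _ ≤ ∑ x ∈ (rp z m).divisorsAntidiagonal, ic (rp z m ≤ E ^ 2) := by
        refine Finset.sum_le_sum (fun x hx => ?_)
        rw [abs_mul, abs_ic]
        have h1 := (Nat.mem_divisorsAntidiagonal.1 hx).1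
        have h2 : ic (x.1 ≤ E ∧ x.2 ≤ E) ≤ ic (rp z m ≤ E ^ 2) := by
          apply ic_mono
          rintro ⟨h3, h4⟩
          rw [← h1, sq]
          exact Nat.mul_le_mul h3 h4
        calc ic (x.1 ≤ E ∧ x.2 ≤ E) * |chi x.1| ≤ ic (x.1 ≤ E ∧ x.2 ≤ E) * 1 :=
              mul_le_mul_of_nonneg_left (abs_chi_le _) (ic_nonneg _)
          _ = ic (x.1 ≤ E ∧ x.2 ≤ E) := mul_one _
          _ ≤ _ := h2
    _ = ic (rp z m ≤ E ^ 2) * ((rp z m).divisors.card : ℝ) := by
        rw [Nat.sum_divisorsAntidiagonal (fun _ _ => ic (rp z m ≤ E ^ 2)), Finset.sum_const,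
          nsmul_eq_mul, mul_comm]
    _ ≤ ic (rp z m ≤ E ^ 2) * 2 ^ Om z m := by
        rw [Om_eq_Om_rp z hm]
        exact mul_le_mul_of_nonneg_left (card_divisors_rp_le z m) (ic_nonneg _)

theorem ic_rp_le {z E m N₁ : ℕ} (hz : 100 ≤ z) (hN : 0 < N₁) (hm : N₁ < m) :
    ic (rp z m ≤ E ^ 2) ≤ Real.exp (-(Real.log ((N₁ : ℝ) / E ^ 2) / Real.log z)) *
      (sp z m : ℝ) ^ (1 / Real.log z) := by
  have h0 : (0 : ℝ) ≤ (sp z m : ℝ) ^ (1 / Real.log z) := Real.rpow_nonneg (Nat.cast_nonneg _) _
  by_cases h : rp z m ≤ E ^ 2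
  · rw [ic_pos h]
    have hE : 0 < E := by
      rcases Nat.eq_zero_or_pos E with h1 | h1
      · exfalso
        have h2 := rp_pos z m
        rw [h1] at h
        omega
      · exact h1
    have hm0 : 0 < m := by omega
    have hsr := sp_mul_rp z hm0
    have hs0 : (0 : ℝ) < sp z m := by exact_mod_cast sp_pos z m
    have hE0 : (0 : ℝ) < (E : ℝ) ^ 2 := by
      have : (0 : ℝ) < E := by exact_mod_cast hE
      positivity
    have h1 : (N₁ : ℝ) / E ^ 2 ≤ sp z m := by
      rw [div_le_iff₀ hE0]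
      have h2 : N₁ ≤ sp z m * E ^ 2 := by
        calc N₁ ≤ m := by omega
          _ = sp z m * rp z m := hsr.symm
          _ ≤ sp z m * E ^ 2 := Nat.mul_le_mul_left _ h
      exact_mod_cast h2
    have hq : (0 : ℝ) < (N₁ : ℝ) / E ^ 2 := by
      have : (0 : ℝ) < N₁ := by exact_mod_cast hN
      positivity
    have h3 : Real.log ((N₁ : ℝ) / E ^ 2) ≤ Real.log (sp z m) := Real.log_le_log hq h1
    have hlz := log_ge hz
    rw [Real.rpow_def_of_pos hs0, ← Real.exp_add]
    apply Real.one_le_exp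
    have h4 : Real.log ((N₁ : ℝ) / E ^ 2) / Real.log z ≤ Real.log (sp z m) * (1 / Real.log z) := by
      rw [mul_one_div]
      gcongr
    linarith
  · rw [ic_neg h]
    positivity

theorem mertens_prime {n : ℕ} (hn : 1 ≤ n) :
    ∑ p ∈ Icc 1 n, ic p.Prime * Real.log p / p ≤ Real.log n + 6 := by
  refine le_trans ?_ (Pool.Agent.H22.MR.mertens_le hn)
  refine Finset.sum_le_sum (fun p hp => ?_)
  have hp0 : 0 < p := (Finset.mem_Icc.1 hp).1
  by_cases h : p.Prime
  · rw [ic_pos h, one_mul, ArithmeticFunction.vonMangoldt_apply_prime h]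
  · rw [ic_neg h, zero_mul, zero_div]
    exact div_nonneg ArithmeticFunction.vonMangoldt_nonneg (Nat.cast_nonneg _)

theorem ic_le_chi {p : ℕ} (h2 : 2 < p) : ic p.Prime * ic (p % 4 ≠ 3) ≤
    (ic p.Prime + ic p.Prime * chi p) / 2 := by
  by_cases h : p.Prime
  · rw [ic_pos h, one_mul, one_mul]
    have hodd : p % 2 = 1 := by
      rcases h.eq_two_or_odd with h3 | h3
      · omega
      · exact h3
    rcases (by omega : p % 4 = 1 ∨ p % 4 = 3) with h4 | h4
    · rw [chi_of_one h4]
      have := ic_le_one (p % 4 ≠ 3)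
      linarith
    · rw [ic_neg (fun h5 => h5 h4), chi_of_three h4]
      norm_num
  · rw [ic_neg h]
    simp


/-- The sum over the small primes. -/
theorem sum_one {C : ℝ} (hC : 0 < C) (h : ∀ z x : ℕ, 2 ≤ z → z ≤ x →
    |∑ p ∈ Ioc z x, ic p.Prime / p - (Real.log (Real.log x) - Real.log (Real.log z))| ≤
      C / Real.log z ∧
    |∑ p ∈ Ioc z x, ic p.Prime * chi p / p| ≤ C / Real.log z) {z : ℕ} (hz : 100 ≤ z) :
    ∑ p ∈ Icc 1 z, ic p.Prime * ic (p % 4 ≠ 3) / p ≤
      1 / 2 * Real.log (Real.log z) + (1 + 2 * C) := by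
  have h2 := h 2 z le_rfl (by omega)
  simp only [Nat.cast_ofNat] at h2
  have hl2 : (1 / 2 : ℝ) < Real.log 2 := by
    have := Real.log_two_gt_d9
    linarith
  have hCl : C / Real.log 2 ≤ 2 * C := by
    rw [div_le_iff₀ (by linarith)]
    nlinarith
  have hll : -Real.log (Real.log 2) ≤ 1 := by
    have h3 : Real.log (1 / 2) ≤ Real.log (Real.log 2) :=
      Real.log_le_log (by norm_num) hl2.le
    have h4 : Real.log (1 / 2) = -Real.log 2 := by
      rw [one_div, Real.log_inv]
    have := Real.log_two_lt_d9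
    linarith
  have h5 : Icc 1 z = Icc 1 2 ∪ Ioc 2 z := by
    ext p
    simp only [Finset.mem_union, Finset.mem_Icc, Finset.mem_Ioc]
    omega
  have h6 : Disjoint (Icc 1 2) (Ioc 2 z) := by
    rw [Finset.disjoint_left]
    intro p hp1 hp2
    simp only [Finset.mem_Icc, Finset.mem_Ioc] at hp1 hp2
    omega
  rw [h5, Finset.sum_union h6]
  have h7 : ∑ p ∈ Icc (1 : ℕ) 2, ic p.Prime * ic (p % 4 ≠ 3) / (p : ℝ) = 1 / 2 := by
    have h8 : Icc (1 : ℕ) 2 = ({1, 2} : Finset ℕ) := by decide
    have h10 : ic (2 % 4 ≠ 3) = 1 := ic_pos (by norm_num)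
    rw [h8, Finset.sum_pair (by norm_num), ic_neg Nat.not_prime_one, ic_pos Nat.prime_two, h10]
    norm_num
  have h9 : ∑ p ∈ Ioc 2 z, ic p.Prime * ic (p % 4 ≠ 3) / p ≤
      (∑ p ∈ Ioc 2 z, ic p.Prime / p + ∑ p ∈ Ioc 2 z, ic p.Prime * chi p / p) / 2 := by
    rw [← Finset.sum_add_distrib, Finset.sum_div]
    refine Finset.sum_le_sum (fun p hp => ?_)
    have hp2 := (Finset.mem_Ioc.1 hp).1
    have h10 := ic_le_chi hp2
    have hp0 : (0 : ℝ) < p := by exact_mod_cast (by omega : 0 < p)
    calc ic p.Prime * ic (p % 4 ≠ 3) / p ≤ (ic p.Prime + ic p.Prime * chi p) / 2 / p := by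
          gcongr
      _ = _ := by ring
  have h11 := (abs_le.1 h2.1).2
  have h12 := (abs_le.1 h2.2).2
  rw [h7]
  linarith

theorem pf_B4 (h1 : T_HR) (h2 : T_MER) : T_B4 := by
  obtain ⟨C, hC, hHR⟩ := h1 3 (by norm_num)
  obtain ⟨M, hM, hMER⟩ := h2
  refine ⟨C * Real.exp (1 + 2 * M + 14 + 2 * M), by positivity, ?_⟩
  intro z E N₁ N hz hzN hN₁
  have hlz := log_ge hz
  have hz0 : (0 : ℝ) < z := by exact_mod_cast (by omega : 0 < z)
  have hN0 : (0 : ℝ) < N := by exact_mod_cast (by omega : 0 < N)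
  have hlN : Real.log z ≤ Real.log N := Real.log_le_log hz0 (by exact_mod_cast hzN)
  set X : ℝ := Real.exp (-(Real.log ((N₁ : ℝ) / E ^ 2) / Real.log z)) with hX
  have hX0 : 0 < X := Real.exp_pos _
  -- reduction to the weight
  have step1 : ∑ m ∈ Ioc N₁ N, ic (Good 0 z m) * |bth z E m| ≤
      X * ∑ m ∈ Icc 1 N, hw z m := by
    calc ∑ m ∈ Ioc N₁ N, ic (Good 0 z m) * |bth z E m|
        ≤ ∑ m ∈ Ioc N₁ N, X * hw z m := by
          refine Finset.sum_le_sum (fun m hm => ?_)
          have hm1 := (Finset.mem_Ioc.1 hm).1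
          have h3 := abs_bth_le z E (m := m) (by omega)
          have h4 := ic_rp_le (E := E) hz hN₁ hm1
          have h5 : |bth z E m| ≤ (X * (sp z m : ℝ) ^ (1 / Real.log z)) * 2 ^ Om z m :=
            h3.trans (mul_le_mul_of_nonneg_right h4 (by positivity))
          calc ic (Good 0 z m) * |bth z E m|
              ≤ ic (Good 0 z m) * ((X * (sp z m : ℝ) ^ (1 / Real.log z)) * 2 ^ Om z m) :=
                mul_le_mul_of_nonneg_left h5 (ic_nonneg _)
            _ = X * hw z m := by unfold hw; ring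
      _ = X * ∑ m ∈ Ioc N₁ N, hw z m := by rw [Finset.mul_sum]
      _ ≤ X * ∑ m ∈ Icc 1 N, hw z m := by
          refine mul_le_mul_of_nonneg_left ?_ hX0.le
          refine Finset.sum_le_sum_of_subset_of_nonneg ?_ (fun m _ _ => hw_nonneg z m)
          intro m hm
          have := Finset.mem_Ioc.1 hm
          exact Finset.mem_Icc.2 ⟨by omega, this.2⟩
  have step2 := hHR (hw z) (hw_one z) (hw_mul z) (fun p hp => hw_prime hz hp) N (by omega)
  -- the sum over the primes
  have step3 : ∑ p ∈ Icc 1 N, ic p.Prime * hw z p / p ≤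
      (1 / 2 * Real.log (Real.log z) + (1 + 2 * M) + 14) +
        (2 * (Real.log (Real.log N) - Real.log (Real.log z)) + 2 * M) := by
    have h5 : Icc 1 N = Icc 1 z ∪ Ioc z N := by
      ext p
      simp only [Finset.mem_union, Finset.mem_Icc, Finset.mem_Ioc]
      omega
    have h6 : Disjoint (Icc 1 z) (Ioc z N) := by
      rw [Finset.disjoint_left]
      intro p hp1 hp2
      simp only [Finset.mem_Icc, Finset.mem_Ioc] at hp1 hp2
      omega
    rw [h5, Finset.sum_union h6]
    refine add_le_add ?_ ?_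
    · have h7 : ∑ p ∈ Icc 1 z, ic p.Prime * hw z p / p ≤
          ∑ p ∈ Icc 1 z, ic p.Prime * ic (p % 4 ≠ 3) / p +
            2 / Real.log z * ∑ p ∈ Icc 1 z, ic p.Prime * Real.log p / p := by
        rw [Finset.mul_sum, ← Finset.sum_add_distrib]
        refine Finset.sum_le_sum (fun p hp => ?_)
        have hp1 := Finset.mem_Icc.1 hp
        have hp0 : (0 : ℝ) < p := by exact_mod_cast hp1.1
        by_cases hpp : p.Prime
        · rw [ic_pos hpp, hw_prime_small hpp hp1.2, one_mul, one_mul, one_mul]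
          have h8 := rpow_le hz hp1.1 hp1.2
          have h9 := ic_nonneg (p % 4 ≠ 3)
          have h10 := ic_le_one (p % 4 ≠ 3)
          have h11 : 0 ≤ Real.log p := Real.log_nonneg (by exact_mod_cast hp1.1)
          have h12 : 0 ≤ Real.log p / Real.log z := div_nonneg h11 (by linarith)
          calc ic (p % 4 ≠ 3) * (p : ℝ) ^ (1 / Real.log z) / p
              ≤ (ic (p % 4 ≠ 3) + 2 * (Real.log p / Real.log z)) / p := by
                gcongr
                nlinarith
            _ = _ := by ring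
        · rw [ic_neg hpp]
          simp
      have h8 := sum_one hM hMER hz
      have h9 := mertens_prime (n := z) (by omega)
      have h10 : 2 / Real.log z * ∑ p ∈ Icc 1 z, ic p.Prime * Real.log p / p ≤ 14 := by
        calc 2 / Real.log z * ∑ p ∈ Icc 1 z, ic p.Prime * Real.log p / p
            ≤ 2 / Real.log z * (Real.log z + 6) := by
              refine mul_le_mul_of_nonneg_left h9 ?_
              positivity
          _ = 2 + 12 / Real.log z := by
              field_simp
              ring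
          _ ≤ 2 + 12 / 1 := by
              gcongr
              linarith
          _ = 14 := by norm_num
      linarith
    · have h7 : ∑ p ∈ Ioc z N, ic p.Prime * hw z p / p =
          2 * ∑ p ∈ Ioc z N, ic p.Prime / p := by
        rw [Finset.mul_sum]
        refine Finset.sum_congr rfl (fun p hp => ?_)
        by_cases hpp : p.Prime
        · rw [ic_pos hpp, hw_prime_large hpp (Finset.mem_Ioc.1 hp).1]
          ring
        · rw [ic_neg hpp]
          simp
      rw [h7]
      have h8 := (abs_le.1 (hMER z N (by omega) hzN).1).2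
      have h9 : M / Real.log z ≤ M := by
        rw [div_le_iff₀ (by linarith)]
        nlinarith
      linarith
  have hllz : Real.exp (1 / 2 * Real.log (Real.log z)) = √(Real.log z) := by
    rw [Real.sqrt_eq_rpow, Real.rpow_def_of_pos (by linarith)]
    congr 1
    ring
  have hlN0 : 0 < Real.log N := by linarith
  have hlz0 : 0 < Real.log z := by linarith
  have hll2 : Real.exp (2 * (Real.log (Real.log N) - Real.log (Real.log z))) =
      (Real.log N / Real.log z) ^ 2 := by
    rw [← Real.log_div hlN0.ne' hlz0.ne']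
    rw [mul_comm, Real.exp_mul, Real.exp_log (by positivity)]
    norm_num
  have step4 : Real.exp (∑ p ∈ Icc 1 N, ic p.Prime * hw z p / p) ≤
      Real.exp (1 + 2 * M + 14 + 2 * M) * (√(Real.log z) * (Real.log N / Real.log z) ^ 2) := by
    rw [← hllz, ← hll2, ← Real.exp_add, ← Real.exp_add]
    apply Real.exp_le_exp.2
    linarith
  have hsq : √(Real.log z) * √(Real.log z) = Real.log z := Real.mul_self_sqrt hlz0.le
  have hsq0 : 0 < √(Real.log z) := Real.sqrt_pos.2 hlz0
  calc ∑ m ∈ Ioc N₁ N, ic (Good 0 z m) * |bth z E m|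
      ≤ X * ∑ m ∈ Icc 1 N, hw z m := step1
    _ ≤ X * (C * N / Real.log N *
          (Real.exp (1 + 2 * M + 14 + 2 * M) *
            (√(Real.log z) * (Real.log N / Real.log z) ^ 2))) := by
        refine mul_le_mul_of_nonneg_left ?_ hX0.le
        refine step2.trans ?_
        refine mul_le_mul_of_nonneg_left step4 ?_
        positivity
    _ = C * Real.exp (1 + 2 * M + 14 + 2 * M) * N / √(Real.log z) *
          (Real.log N / Real.log z) * X := by
        have h3 : √(Real.log z) * (Real.log N / Real.log z) ^ 2 / Real.log N =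
            1 / √(Real.log z) * (Real.log N / Real.log z) := by
          have h4 : Real.log z = √(Real.log z) * √(Real.log z) := hsq.symm
          field_simp
          rw [sq, hsq]
        calc _ = X * (C * N * Real.exp (1 + 2 * M + 14 + 2 * M)) *
              (√(Real.log z) * (Real.log N / Real.log z) ^ 2 / Real.log N) := by ring
          _ = _ := by rw [h3]; ring

end Pool.Agent.H22.MS
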