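import Pool.Agent.H44.MS.Basics

/-!
# CL: the choice of the class of the small coordinate
-/

set_option autoImplicit false

namespace Pool.Agent.H22.MS.CL

open Finset Pool.Agent.H44.MS

theorem pf_CL : T_CL := by
  intro y hy
  set P : Finset ℕ := (Icc 1 y).filter Nat.Prime with hP
  set s : ℕ → ℕ := fun p => if p = 2 then 8 else p with hs
  have hPmem : ∀ p, p ∈ P ↔ p ≤ y ∧ p.Prime := by
    intro p
    rw [hP, mem_filter, mem_Icc]
    constructor
    · rintro ⟨⟨_, h1⟩, h2⟩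
      exact ⟨h1, h2⟩
    · rintro ⟨h1, h2⟩
      exact ⟨⟨h2.one_lt.le, h1⟩, h2⟩
  have hs0 : ∀ p ∈ P, s p ≠ 0 := by
    intro p hp
    have := ((hPmem p).1 hp).2.pos
    simp only [hs]
    split_ifs <;> omega
  have hcop : Set.Pairwise (P : Set ℕ) (Function.onFun Nat.Coprime s) := by
    intro p hp q hq hpq
    have hp' := ((hPmem p).1 hp).2
    have hq' := ((hPmem q).1 hq).2
    show Nat.Coprime (s p) (s q)
    simp only [hs]
    split_ifs with h1 h2 h2
    · omega
    · have : Nat.Coprime 2 q := (Nat.coprime_primes Nat.prime_two hq').2 (fun h => h2 h.symm)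
      exact Nat.Coprime.pow_left 3 this
    · have : Nat.Coprime p 2 := (Nat.coprime_primes hp' Nat.prime_two).2 h1
      exact Nat.Coprime.pow_right 3 this
    · exact (Nat.coprime_primes hp' hq').2 hpq
  have hdvd : ∀ p ∈ P, s p ∣ ∏ p ∈ P, s p := fun p hp => dvd_prod_of_mem s hp
  have h2P : 2 ∈ P := (hPmem 2).2 ⟨by omega, Nat.prime_two⟩
  have h8 : 8 ∣ ∏ p ∈ P, s p := by
    have := hdvd 2 h2P
    simpa [hs] using this
  have hp1 : ∀ p : ℕ, p.Prime → p ≠ 2 → p ≤ y → p ∣ ∏ p ∈ P, s p := by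
    intro p hp h2 hpy
    have := hdvd p ((hPmem p).2 ⟨hpy, hp⟩)
    simpa [hs, h2] using this
  have hQpos : 0 < ∏ p ∈ P, s p := prod_pos fun p hp => Nat.pos_of_ne_zero (hs0 p hp)
  refine ⟨∏ p ∈ P, s p, hQpos, ?_, ?_⟩
  · intro p hp hpd
    rw [hp.prime.dvd_finsetProd_iff] at hpd
    obtain ⟨q, hq, hpq⟩ := hpd
    have hq' := (hPmem q).1 hq
    simp only [hs] at hpq
    split_ifs at hpq with h
    · have h3 : p ∣ 2 ^ 3 := hpq
      have h4 := Nat.le_of_dvd two_pos (hp.dvd_of_dvd_pow h3)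
      omega
    · rw [(Nat.prime_dvd_prime_iff_eq hp hq'.2).1 hpq]
      exact hq'.1
  · intro n hn4 hn8
    set Q : ℕ := ∏ p ∈ P, s p with hQ
    set a : ℕ → ℕ := fun p => if p = 2 then (if n % 4 = 1 then 0 else 1) else
      (if p ∣ n then 1 else 0) with ha
    obtain ⟨k, hk⟩ := Nat.chineseRemainderOfFinset a s P hs0 hcop
    refine ⟨k % Q, (Nat.mod_lt _ hQpos).le, ?_⟩
    intro n' t hn' hlt
    set z : ℕ := k % Q + Q * t with hz
    obtain ⟨m, hm⟩ : ∃ m, n' = m + z ^ 2 := ⟨n' - z ^ 2, by omega⟩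
    have hzk : ∀ r, r ∣ Q → z ≡ k [MOD r] := by
      intro r hr
      have h1 : k % Q + Q * t ≡ k + Q * t [MOD Q] := (Nat.mod_modEq k Q).add_right _
      have h2 : k + Q * t ≡ k [MOD Q] := by
        have : k + Q * t ≡ k + 0 [MOD Q] :=
          Nat.ModEq.add_left k ((Nat.modEq_zero_iff_dvd).2 (dvd_mul_right Q t))
        simpa using this
      exact (h1.trans h2).of_dvd hr
    have hnn : ∀ r, r ∣ Q → n' ≡ n [MOD r] := fun r hr => Nat.ModEq.of_dvd hr hn'
    have hm' : n' - z ^ 2 = m := by omega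
    rw [hm']
    constructor
    · have h1 : z ≡ (if n % 4 = 1 then 0 else 1) [MOD 8] := by
        have h2 := hk 2 h2P
        simp only [hs, ha, if_true] at h2
        exact (hzk 8 h8).trans h2
      have h3 : n' % 8 = n % 8 := hnn 8 h8
      have h4 : z ^ 2 % 8 = (if n % 4 = 1 then 0 else 1) := by
        have h5 : z ^ 2 ≡ (if n % 4 = 1 then 0 else 1) ^ 2 [MOD 8] := h1.pow 2
        have h6 : z ^ 2 % 8 = (if n % 4 = 1 then 0 else 1) ^ 2 % 8 := h5
        rw [h6]
        split_ifs <;> rfl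
      split_ifs at h4 with h7
      · left
        omega
      · omega
    · intro p hp hp2 hpy hpm
      have hpQ := hp1 p hp hp2 hpy
      have h1 : z ≡ (if p ∣ n then 1 else 0) [MOD p] := by
        have h2 := hk p ((hPmem p).2 ⟨hpy, hp⟩)
        simp only [hs, ha, hp2, if_false] at h2
        exact (hzk p hpQ).trans h2
      have h3 := hnn p hpQ
      by_cases hpn : p ∣ n
      · rw [if_pos hpn] at h1
        have h4 : p ∣ n' := (Nat.modEq_zero_iff_dvd).1 (h3.trans ((Nat.modEq_zero_iff_dvd).2 hpn))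
        rw [hm] at h4
        have h5 : p ∣ z := hp.dvd_of_dvd_pow ((Nat.dvd_add_right hpm).1 h4)
        have h6 : 1 ≡ 0 [MOD p] := h1.symm.trans ((Nat.modEq_zero_iff_dvd).2 h5)
        have h7 := (Nat.modEq_zero_iff_dvd).1 h6
        exact absurd (Nat.dvd_one.1 h7) hp.one_lt.ne'
      · rw [if_neg hpn] at h1
        have h5 : p ∣ z := (Nat.modEq_zero_iff_dvd).1 h1
        apply hpn
        have h4 : p ∣ n' := by
          rw [hm]
          exact dvd_add hpm (dvd_pow h5 two_ne_zero)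
        exact (Nat.modEq_zero_iff_dvd).1 (h3.symm.trans ((Nat.modEq_zero_iff_dvd).2 h4))

end Pool.Agent.H22.MS.CL
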