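import Pool.Agent.H44.MS.Basics

/-!
# The sieve function is a majorant and its excess is majorised
-/

set_option autoImplicit false

namespace Pool.Agent.H22.MS

open Finset Real Pool.Agent.H44.MS

theorem ic_forall {ι : Type*} (s : Finset ι) (p : ι → Prop) :
    ic (∀ i ∈ s, p i) = ∏ i ∈ s, ic (p i) := by
  classical
  induction s using Finset.induction_on with
  | empty =>
    rw [Finset.prod_empty]
    exact ic_pos (by simp)
  | insert a s ha ih =>
    rw [Finset.prod_insert ha, ← ih, ← ic_and]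
    apply ic_congr
    simp

theorem neg_one_pow_card {T : Finset ℕ} {β : ℕ → ℕ} {I : ℕ} (h : ∀ p ∈ T, β p < I) :
    (-1 : ℝ) ^ T.card = ∏ i ∈ range I, (-1 : ℝ) ^ (T.filter (fun p => β p = i)).card := by
  rw [Finset.prod_pow_eq_pow_sum]
  congr 1
  exact Finset.card_eq_sum_card_fiberwise (fun p hp => by simpa using h p hp)

/-- The alternating sum truncated at an even number. -/
theorem alt_even (B : Finset ℕ) {b : ℕ} (hb : Even b) :
    ∑ U ∈ B.powerset, ic (U.card ≤ b) * (-1 : ℝ) ^ U.card =
      if B.card = 0 then 1 else (((B.card - 1).choose b : ℕ) : ℝ) := by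
  have h0 := Finset.sum_powerset_apply_card (fun k => ic (k ≤ b) * (-1 : ℝ) ^ k) (x := B)
  rw [h0]
  rcases hw : B.card with _ | n
  · simp only [zero_add, Finset.sum_range_one, Nat.choose_self, one_smul, pow_zero, mul_one,
      if_true]
    exact ic_pos (Nat.zero_le b)
  · rw [if_neg (Nat.succ_ne_zero n), Nat.add_sub_cancel]
    have h1 : ∑ m ∈ range (n + 1 + 1), (n + 1).choose m • (ic (m ≤ b) * (-1 : ℝ) ^ m) =
        ∑ m ∈ range (n + 1 + 1 + b), (n + 1).choose m • (ic (m ≤ b) * (-1 : ℝ) ^ m) := by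
      refine Finset.sum_subset (Finset.range_mono (by omega)) ?_
      intro m _ hm
      rw [Finset.mem_range, not_lt] at hm
      rw [Nat.choose_eq_zero_of_lt (by omega), zero_smul]
    have h2 : ∑ m ∈ range (b + 1), (n + 1).choose m • (ic (m ≤ b) * (-1 : ℝ) ^ m) =
        ∑ m ∈ range (n + 1 + 1 + b), (n + 1).choose m • (ic (m ≤ b) * (-1 : ℝ) ^ m) := by
      refine Finset.sum_subset (Finset.range_mono (by omega)) ?_
      intro m _ hm
      rw [Finset.mem_range, not_lt] at hm
      rw [ic_neg (by omega), zero_mul, smul_zero]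
    have h3 := Int.alternating_sum_range_choose_eq_choose (n := n) (m := b)
    rw [hb.neg_one_pow, one_mul] at h3
    have h4 : (((∑ k ∈ range (b + 1), ((-1) ^ k * (n + 1).choose k : ℤ)) : ℤ) : ℝ) =
        (((n.choose b : ℕ) : ℤ) : ℝ) := by
      rw [h3]
    rw [h1, ← h2]
    push_cast at h4
    rw [← h4]
    refine Finset.sum_congr rfl (fun m hm => ?_)
    rw [ic_pos (Nat.lt_succ_iff.1 (Finset.mem_range.1 hm)), one_mul, nsmul_eq_mul, mul_comm]

/-- The sum over the sets with exactly `b + 1` elements. -/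
theorem alt_odd (B : Finset ℕ) {b : ℕ} (hb : Even b) :
    ∑ U ∈ B.powerset, -1 * (ic (U.card = b + 1) * (-1 : ℝ) ^ U.card) =
      ((B.card.choose (b + 1) : ℕ) : ℝ) := by
  have h0 := Finset.sum_powerset_apply_card
    (fun k => -1 * (ic (k = b + 1) * (-1 : ℝ) ^ k)) (x := B)
  rw [h0, Finset.sum_eq_single (b + 1)]
  · rw [ic_pos rfl, hb.add_one.neg_one_pow, nsmul_eq_mul]
    ring
  · intro k _ hk
    rw [ic_neg hk]
    simp
  · intro hk
    rw [Finset.mem_range, not_lt] at hk
    rw [Nat.choose_eq_zero_of_lt (by omega), zero_smul]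

theorem mem_PA (A : ℕ → Prop) (z p : ℕ) : p ∈ PA A z ↔ p ≤ z ∧ p.Prime ∧ A p := by
  classical
  unfold PA
  simp only [Finset.mem_filter, Finset.mem_Icc]
  constructor
  · rintro ⟨⟨_, h1⟩, h2, h3⟩
    exact ⟨h1, h2, h3⟩
  · rintro ⟨h1, h2, h3⟩
    exact ⟨⟨h2.pos, h1⟩, h2, h3⟩

/-- The condition for the block `i` in the decomposition of `Ok1`. -/
def Qc (s i₀ i n : ℕ) : Prop := (i = i₀ ∧ n = 2 * (s + i) + 1) ∨ (i ≠ i₀ ∧ n ≤ 2 * (s + i))

theorem Qc_self (s i n : ℕ) : Qc s i i n ↔ n = 2 * (s + i) + 1 := by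
  unfold Qc
  constructor
  · rintro (h | h)
    · exact h.2
    · exact absurd rfl h.1
  · intro h
    exact Or.inl ⟨rfl, h⟩

theorem Qc_ne {s i₀ i n : ℕ} (hi : i ≠ i₀) : Qc s i₀ i n ↔ n ≤ 2 * (s + i) := by
  unfold Qc
  constructor
  · rintro (h | h)
    · exact absurd h.1 hi
    · exact h.2
  · intro h
    exact Or.inr ⟨hi, h⟩

theorem om_prod {z : ℕ} {T : Finset ℕ} (i : ℕ)
    (h : (∏ p ∈ T, p).primeFactors = T) :
    om z i (∏ p ∈ T, p) = (T.filter (fun p => bi z p = i)).card := by
  unfold om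
  rw [h]

theorem ok_iff {s z I : ℕ} {T : Finset ℕ} (h : (∏ p ∈ T, p).primeFactors = T)
    (hI : ∀ p ∈ T, bi z p < I) :
    Ok s z (∏ p ∈ T, p) ↔
      ∀ i ∈ range I, (T.filter (fun p => bi z p = i)).card ≤ 2 * (s + i) := by
  unfold Ok
  constructor
  · intro h1 i _
    have h2 := h1 i
    rw [om_prod i h] at h2
    exact h2
  · intro h1 i
    rw [om_prod i h]
    by_cases hi : i < I
    · exact h1 i (Finset.mem_range.2 hi)
    · have h3 : T.filter (fun p => bi z p = i) = ∅ := by
        rw [Finset.filter_eq_empty_iff]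
        intro p hp hpi
        exact hi (hpi ▸ hI p hp)
      rw [h3]
      simp

theorem ic_ok1 {s z I : ℕ} {T : Finset ℕ} (h : (∏ p ∈ T, p).primeFactors = T)
    (hI : ∀ p ∈ T, bi z p < I) :
    ic (Ok1 s z (∏ p ∈ T, p)) = ∑ i₀ ∈ range I,
      ic (∀ i ∈ range I, Qc s i₀ i (T.filter (fun p => bi z p = i)).card) := by
  have hom : ∀ i, om z i (∏ p ∈ T, p) = (T.filter (fun p => bi z p = i)).card :=
    fun i => om_prod i h
  have hz : ∀ i, ¬ i < I → (T.filter (fun p => bi z p = i)).card = 0 := by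
    intro i hi
    rw [Finset.card_eq_zero, Finset.filter_eq_empty_iff]
    intro p hp hpi
    exact hi (hpi ▸ hI p hp)
  by_cases hO : Ok1 s z (∏ p ∈ T, p)
  · rw [ic_pos hO]
    obtain ⟨i₀, h1, h2⟩ := hO
    simp only [hom] at h1 h2
    have hi₀ : i₀ < I := by
      by_contra hcon
      have := hz i₀ hcon
      omega
    rw [Finset.sum_eq_single i₀]
    · symm
      apply ic_pos
      intro i _
      by_cases hi : i = i₀
      · rw [hi, Qc_self]
        exact h1
      · rw [Qc_ne hi]
        exact h2 i hi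
    · intro j _ hj
      apply ic_neg
      intro h3
      have h4 := h3 i₀ (Finset.mem_range.2 hi₀)
      rw [Qc_ne (Ne.symm hj)] at h4
      omega
    · intro h3
      exact absurd (Finset.mem_range.2 hi₀) h3
  · rw [ic_neg hO]
    symm
    apply Finset.sum_eq_zero
    intro i₀ hi₀
    apply ic_neg
    intro h3
    apply hO
    refine ⟨i₀, ?_, ?_⟩
    · rw [hom]
      exact (Qc_self _ _ _).1 (h3 i₀ hi₀)
    · intro k hk
      rw [hom]
      by_cases hkI : k < I
      · exact (Qc_ne hk).1 (h3 k (Finset.mem_range.2 hkI))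
      · rw [hz k hkI]
        exact Nat.zero_le _

theorem pf_TH (h1 : T_BP) (h2 : T_TR) : T_TH := by
  intro A s z m hm
  obtain ⟨hTR1, -, hTR3, -⟩ := h2 A z
  set P := (PA A z).filter (fun p => p ∣ m) with hP
  obtain ⟨I, hI⟩ : ∃ I, ∀ p ∈ P, bi z p < I :=
    ⟨P.sup (bi z) + 1, fun p hp => Nat.lt_succ_of_le (Finset.le_sup hp)⟩
  have hBP := (h1 P (bi z) I hI).1
  have hsub : ∀ T ∈ P.powerset, T ∈ (PA A z).powerset := by
    intro T hT
    rw [Finset.mem_powerset] at hT ⊢
    exact hT.trans (Finset.filter_subset _ _)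
  have hIT : ∀ T ∈ P.powerset, ∀ p ∈ T, bi z p < I := by
    intro T hT p hp
    exact hI p ((Finset.mem_powerset.1 hT) hp)
  set w : ℕ → ℕ := fun i => (P.filter (fun p => bi z p = i)).card with hw
  set t : ℕ → ℝ := fun i => if w i = 0 then 1 else (((w i - 1).choose (2 * (s + i)) : ℕ) : ℝ)
    with ht
  set c : ℕ → ℝ := fun i => (((w i).choose (2 * (s + i) + 1) : ℕ) : ℝ) with hc
  have heven : ∀ i : ℕ, Even (2 * (s + i)) := fun i => even_two_mul _
  have hth : th A s z m = ∏ i ∈ range I, t i := by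
    calc th A s z m = ∑ d ∈ m.divisors, ic (An A z d) * (ic (Ok s z d) * mu d) := by
          unfold th lam
          refine Finset.sum_congr rfl (fun d _ => ?_)
          rw [ic_and, mul_assoc]
      _ = ∑ T ∈ P.powerset, (ic (Ok s z (∏ p ∈ T, p)) * mu (∏ p ∈ T, p)) :=
          hTR3 m (fun d => ic (Ok s z d) * mu d) hm
      _ = ∑ T ∈ P.powerset, ∏ i ∈ range I,
            (ic ((T.filter (fun p => bi z p = i)).card ≤ 2 * (s + i)) *
              (-1 : ℝ) ^ (T.filter (fun p => bi z p = i)).card) := by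
          refine Finset.sum_congr rfl (fun T hT => ?_)
          obtain ⟨h3, _, _, h4⟩ := hTR1 T (hsub T hT)
          rw [ic_congr (ok_iff h3 (hIT T hT)), h4, ic_forall, neg_one_pow_card (hIT T hT),
            ← Finset.prod_mul_distrib]
      _ = ∏ i ∈ range I, t i := by
          rw [hBP (fun i U => ic (U.card ≤ 2 * (s + i)) * (-1 : ℝ) ^ U.card)]
          refine Finset.prod_congr rfl (fun i _ => ?_)
          rw [alt_even _ (heven i)]
  have hexc : exc A s z m = ∑ i₀ ∈ range I, ∏ i ∈ range I, (if i = i₀ then c i else t i) := by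
    calc exc A s z m = ∑ d ∈ m.divisors, ic (An A z d) * (-(ic (Ok1 s z d) * mu d)) := by
          unfold exc kap
          refine Finset.sum_congr rfl (fun d _ => ?_)
          rw [ic_and]
          ring
      _ = ∑ T ∈ P.powerset, (-(ic (Ok1 s z (∏ p ∈ T, p)) * mu (∏ p ∈ T, p))) :=
          hTR3 m (fun d => -(ic (Ok1 s z d) * mu d)) hm
      _ = ∑ T ∈ P.powerset, ∑ i₀ ∈ range I, ∏ i ∈ range I,
            ((if i = i₀ then (-1 : ℝ) else 1) *
              (ic (Qc s i₀ i (T.filter (fun p => bi z p = i)).card) *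
              (-1 : ℝ) ^ (T.filter (fun p => bi z p = i)).card)) := by
          refine Finset.sum_congr rfl (fun T hT => ?_)
          obtain ⟨h3, _, _, h4⟩ := hTR1 T (hsub T hT)
          rw [ic_ok1 h3 (hIT T hT), h4, Finset.sum_mul, ← Finset.sum_neg_distrib]
          refine Finset.sum_congr rfl (fun i₀ hi₀ => ?_)
          rw [Finset.prod_mul_distrib, Finset.prod_mul_distrib, ← ic_forall,
            ← neg_one_pow_card (hIT T hT), Finset.prod_ite_eq' (range I) i₀ (fun _ => (-1 : ℝ)),
            if_pos hi₀]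
          ring
      _ = ∑ i₀ ∈ range I, ∑ T ∈ P.powerset, ∏ i ∈ range I,
            ((if i = i₀ then (-1 : ℝ) else 1) *
              (ic (Qc s i₀ i (T.filter (fun p => bi z p = i)).card) *
              (-1 : ℝ) ^ (T.filter (fun p => bi z p = i)).card)) := Finset.sum_comm
      _ = ∑ i₀ ∈ range I, ∏ i ∈ range I, (if i = i₀ then c i else t i) := by
          refine Finset.sum_congr rfl (fun i₀ _ => ?_)
          rw [hBP (fun i U => (if i = i₀ then (-1 : ℝ) else 1) *
              (ic (Qc s i₀ i U.card) * (-1 : ℝ) ^ U.card))]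
          refine Finset.prod_congr rfl (fun i _ => ?_)
          by_cases hi : i = i₀
          · rw [if_pos hi, if_pos hi]
            have h5 := alt_odd (P.filter (fun p => bi z p = i)) (heven i)
            rw [hc]
            simp only
            rw [← h5]
            refine Finset.sum_congr rfl (fun U _ => ?_)
            rw [← hi, ic_congr (Qc_self s i U.card)]
          · rw [if_neg hi, if_neg hi]
            have h5 := alt_even (P.filter (fun p => bi z p = i)) (heven i)
            rw [ht]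
            simp only
            rw [← h5]
            refine Finset.sum_congr rfl (fun U _ => ?_)
            rw [ic_congr (Qc_ne hi), one_mul]
  have ht0 : ∀ i, 0 ≤ t i := by
    intro i
    rw [ht]
    simp only
    split_ifs
    · exact zero_le_one
    · exact Nat.cast_nonneg _
  have hc0 : ∀ i, 0 ≤ c i := fun i => Nat.cast_nonneg _
  have hterm : ∀ i₀, 0 ≤ ∏ i ∈ range I, (if i = i₀ then c i else t i) := by
    intro i₀
    refine Finset.prod_nonneg (fun i _ => ?_)
    split_ifs
    · exact hc0 i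
    · exact ht0 i
  have hexc0 : 0 ≤ exc A s z m := by
    rw [hexc]
    exact Finset.sum_nonneg (fun i₀ _ => hterm i₀)
  by_cases hSv : Sv A z m
  · have hPe : P = ∅ := by
      rw [hP, Finset.filter_eq_empty_iff]
      intro p hp
      obtain ⟨h3, h4, h5⟩ := (mem_PA A z p).1 hp
      exact hSv p h4 h5 h3
    have ht1 : th A s z m = 1 := by
      rw [hth]
      apply Finset.prod_eq_one
      intro i _
      have h3 : w i = 0 := by
        rw [hw]
        simp only
        rw [hPe]
        simp
      rw [ht]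
      simp only
      rw [if_pos h3]
    rw [ic_pos hSv, ht1]
    exact ⟨le_rfl, by linarith⟩
  · rw [ic_neg hSv, sub_zero]
    refine ⟨by rw [hth]; exact Finset.prod_nonneg (fun i _ => ht0 i), ?_⟩
    have h3 : ∃ p, p ∈ P := by
      by_contra hcon
      apply hSv
      intro p hp hA hz hd
      apply hcon
      exact ⟨p, Finset.mem_filter.2 ⟨(mem_PA A z p).2 ⟨hz, hp, hA⟩, hd⟩⟩
    obtain ⟨p, hp⟩ := h3
    have hi₀ : bi z p ∈ range I := Finset.mem_range.2 (hI p hp)
    have hw1 : w (bi z p) ≠ 0 := by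
      rw [hw]
      simp only
      rw [Finset.card_ne_zero]
      exact ⟨p, Finset.mem_filter.2 ⟨hp, rfl⟩⟩
    have htc : t (bi z p) ≤ c (bi z p) := by
      rw [ht, hc]
      simp only
      rw [if_neg hw1]
      obtain ⟨n, hn⟩ := Nat.exists_eq_succ_of_ne_zero hw1
      rw [hn, Nat.succ_eq_add_one, Nat.add_sub_cancel, Nat.choose_succ_succ]
      exact_mod_cast Nat.le_add_right _ _
    rw [hth, hexc]
    calc ∏ i ∈ range I, t i
        ≤ ∏ i ∈ range I, (if i = bi z p then c i else t i) := by
          refine Finset.prod_le_prod (fun i _ => ht0 i) (fun i _ => ?_)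
          split_ifs with hi
          · rw [hi]
            exact htc
          · exact le_rfl
      _ ≤ ∑ i₀ ∈ range I, ∏ i ∈ range I, (if i = i₀ then c i else t i) :=
          Finset.single_le_sum
            (f := fun i₀ => ∏ i ∈ range I, (if i = i₀ then c i else t i))
            (fun i₀ _ => hterm i₀) hi₀

end Pool.Agent.H22.MS
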